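import Pool.Agent.Lib.MP_cb4a0f_co.Pl.All

/-!
The structure of rotated graphs that exclude a planar rotated graph.
-/

open RotWqo RotWqo.Bag RotWqo.Pl

namespace Pool.Agent.Results.MP_cb4a0f_co.ExcludedPlanar

/-- A rotated graph `P` is planar if and only if there are `m` and `M` such that every rotated
graph `G` in which `P` does not immerse has a laminar family `T` of sets of vertices, each of them
left by fewer than `M` edges, that separates two vertices of every set of at least `m` vertices. -/
theorem result {V₀ H₀ : Type} (P : RotGraph V₀ H₀) : Planar P ↔
    ∃ m M : ℕ, ∀ (V H : Type) (G : RotGraph V H), ¬ Imm (fun _ _ => True) P G →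
      ∃ T, IsLam m M G T :=
  planar_iff path_all euler_all host_all I_16 gh_all S_26 P

end Pool.Agent.Results.MP_cb4a0f_co.ExcludedPlanar
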