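import Pool.Agent.Lib.MP_cb4a0f_co.Pb.All

/-!
Rotated graphs that exclude a planar rotated graph and have arc carvings of bounded width are
well-quasi-ordered by immersion.
-/

open RotWqo RotWqo.Pl RotWqo.Pb

namespace Pool.Agent.Results.MP_cb4a0f_co.ExcludedPlanarArcs

/-- Let `P` be a planar rotated graph. For every `k` and every well-quasi-order `q` on `Q`: among
infinitely many rotated graphs with vertices labelled by elements of `Q`, in which `P` does not
immerse and each of which has no half-edges or an arc carving of width at most `k`, there are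
`i < j` such that `G i` immerses in `G j`, each vertex going to a vertex whose label is not
smaller. -/
theorem result {V₀ H₀ : Type} (P : RotGraph V₀ H₀) (hP : Planar P) (k : ℕ) (Q : Type)
    (q : Q → Q → Prop) [IsPreorder Q q] (hq : WellQuasiOrdered q) (V H : ℕ → Type)
    [∀ i, Nonempty (V i)] [∀ i, Nonempty (H i)] (G : ∀ i, RotGraph (V i) (H i))
    (lab : ∀ i, V i → Q) (hG : ∀ i, (G i).darts = ∅ ∨ ∃ t, IsACar k (G i) (G i).verts t)
    (hf : ∀ i, ¬ Imm (fun _ _ => True) P (G i)) :
    ∃ i j, i < j ∧ Imm (fun v w => q (lab i v) (lab j w)) (G i) (G j) :=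
  wqo_free_arc P hP k Q q hq V H G lab hG hf

end Pool.Agent.Results.MP_cb4a0f_co.ExcludedPlanarArcs
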