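import Pool.Agent.Lib.MP_cb4a0f_co.Pb.All

/-!
Planar rotated graphs of bounded branch-width are well-quasi-ordered by immersion.
-/

open RotWqo RotWqo.Pb

namespace Pool.Agent.Results.MP_cb4a0f_co.PlanarBranchWidth

/-- For every `k`: among infinitely many rotated graphs `G 0, G 1, ...` whose connected components
are planar, each without half-edges or with a branch decomposition of width at most `k`, there are
`i < j` such that `G i` is isomorphic to a rotated graph obtained from `G j` by deletions of edges,
deletions of isolated vertices and splitting-off operations. -/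
theorem result (k : ℕ) (V H : ℕ → Type) [∀ i, Nonempty (V i)] [∀ i, Nonempty (H i)]
    (G : ∀ i, RotGraph (V i) (H i)) (hP : ∀ i, CPlanar (G i))
    (hG : ∀ i, (G i).darts = ∅ ∨ ∃ t, IsBr k (G i) (G i).verts t) :
    ∃ i j, i < j ∧ Imm (fun _ _ => True) (G i) (G j) :=
  wqo_planar_br k V H G hP hG

end Pool.Agent.Results.MP_cb4a0f_co.PlanarBranchWidth
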