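import Pool.Agent.Lib.MP_cb4a0f_co.Tc.All

/-!
Rotated graphs of bounded tree-cut width are well-quasi-ordered by immersion.
-/

open RotWqo RotWqo.Tc

namespace Pool.Agent.Results.MP_cb4a0f_co.TreeCutWidth

universe u

/-- For every `k` and every well-quasi-order `q` on `Q`: among infinitely many rotated graphs
`G 0, G 1, ...` with vertices labelled by elements of `Q`, each without vertices or with a tree-cut
decomposition of width at most `k`, there are `i < j` such that `G i` is isomorphic to a rotated
graph obtained from `G j` by deletions of edges, deletions of isolated vertices and splitting-off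
operations, each vertex going to a vertex whose label is not smaller. -/
theorem result (k : ℕ) {Q : Type u} (q : Q → Q → Prop) [IsPreorder Q q]
    (hq : WellQuasiOrdered q) (V H : ℕ → Type u) [∀ i, Nonempty (V i)] [∀ i, Nonempty (H i)]
    (G : ∀ i, RotGraph (V i) (H i)) (lab : ∀ i, V i → Q)
    (hG : ∀ i, (G i).verts = ∅ ∨ ∃ T, TCD k (G i) (G i).verts T) :
    ∃ i j, i < j ∧ Imm (fun v w => q (lab i v) (lab j w)) (G i) (G j) :=
  wqo_tcw k Q q hq V H G lab hG

end Pool.Agent.Results.MP_cb4a0f_co.TreeCutWidth
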